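import Pool.Agent.Helper92_SBG.Stmts

/-!
CHI: characters of `ℤ ^ ι`.
-/

namespace Pool.Agent.SBG.H32

open Pool.Agent.SBG

theorem le_sat {A : Type*} [AddCommGroup A] (L : AddSubgroup A) : L ≤ sat L :=
  fun a ha => ⟨1, one_pos, by simpa using ha⟩

/-- In a finitely generated abelian group, `sat P / P` has a complement in `A / P`. -/
theorem exists_compl {A : Type} [AddCommGroup A] [Module.Finite ℤ A] (P : AddSubgroup A) :
    ∃ F : AddSubgroup A, P ≤ F ∧ F ⊓ sat P ≤ P ∧ F.index = P.relIndex (sat P) ∧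
      P.relIndex (sat P) ≠ 0 := by
  classical
  let PS : Submodule ℤ A := P.toIntSubmodule
  let G := A ⧸ PS
  let T : Submodule ℤ G := Submodule.torsion ℤ G
  have hfree : Module.Free ℤ (G ⧸ T) := inferInstance
  have hproj : Module.Projective ℤ (G ⧸ T) := inferInstance
  obtain ⟨s, hs⟩ := Module.projective_lifting_property T.mkQ LinearMap.id T.mkQ_surjective
  let Fb : Submodule ℤ G := LinearMap.range s
  let FS : Submodule ℤ A := Fb.comap PS.mkQ
  have hker : ∀ x : A, PS.mkQ x = 0 ↔ x ∈ P := fun x => by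
    rw [← LinearMap.mem_ker, Submodule.ker_mkQ]; exact Iff.rfl
  have hT : ∀ x : A, PS.mkQ x ∈ T ↔ x ∈ sat P := by
    intro x
    rw [Submodule.mem_torsion_iff]
    constructor
    · rintro ⟨⟨k, hk⟩, hkx⟩
      have hk0 : k ≠ 0 := nonZeroDivisors.ne_zero hk
      have h1 : k • PS.mkQ x = 0 := hkx
      rw [← map_smul] at h1
      have h2 : k • x ∈ P := (hker _).mp h1
      refine ⟨k.natAbs, Int.natAbs_pos.mpr hk0, ?_⟩
      rcases Int.natAbs_eq k with h | h
      · rw [h] at h2
        rw [← natCast_zsmul]; exact h2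
      · rw [h] at h2
        rw [← natCast_zsmul]
        have := P.neg_mem h2
        rwa [neg_smul, neg_neg] at this
    · rintro ⟨k, hk, hkx⟩
      refine ⟨⟨(k : ℤ), mem_nonZeroDivisors_of_ne_zero (by exact_mod_cast hk.ne')⟩, ?_⟩
      change (k : ℤ) • PS.mkQ x = 0
      rw [← map_smul]
      refine (hker _).mpr ?_
      rw [natCast_zsmul]; exact hkx
  have hinf : FS.toAddSubgroup ⊓ sat P = P := by
    apply le_antisymm
    · rintro x ⟨hx1, hx2⟩
      have h1 : PS.mkQ x ∈ Fb := hx1
      have h2 : PS.mkQ x ∈ T := (hT x).mpr hx2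
      obtain ⟨y, hy⟩ := h1
      have h3 : T.mkQ (PS.mkQ x) = 0 := by
        rw [← LinearMap.mem_ker, Submodule.ker_mkQ]; exact h2
      have h4 : T.mkQ (s y) = y := by
        have := LinearMap.congr_fun hs y
        simpa using this
      rw [hy, h3] at h4
      rw [← h4, map_zero] at hy
      exact (hker x).mp hy.symm
    · refine le_inf ?_ (le_sat P)
      intro x hx
      change PS.mkQ x ∈ Fb
      rw [(hker x).mpr hx]
      exact Fb.zero_mem
  have hsup : FS.toAddSubgroup ⊔ sat P = ⊤ := by
    rw [eq_top_iff]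
    intro x _
    set y := PS.mkQ x - s (T.mkQ (PS.mkQ x)) with hy
    have hyT : y ∈ T := by
      rw [← Submodule.ker_mkQ T, LinearMap.mem_ker, hy, map_sub]
      have := LinearMap.congr_fun hs (T.mkQ (PS.mkQ x))
      simp only [LinearMap.comp_apply, LinearMap.id_apply] at this
      rw [this, sub_self]
    obtain ⟨u, hu⟩ := PS.mkQ_surjective y
    have hu2 : u ∈ sat P := (hT u).mp (by rw [hu]; exact hyT)
    have hxu : x - u ∈ FS.toAddSubgroup := by
      change PS.mkQ (x - u) ∈ Fb
      rw [map_sub, hu, hy]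
      exact ⟨T.mkQ (PS.mkQ x), by abel⟩
    have : x = (x - u) + u := by abel
    rw [this]
    exact AddSubgroup.add_mem_sup hxu hu2
  refine ⟨FS.toAddSubgroup, ?_, hinf.le, ?_, ?_⟩
  · intro x hx
    change PS.mkQ x ∈ Fb
    rw [(hker x).mpr hx]
    exact Fb.zero_mem
  · rw [← AddSubgroup.relIndex_top_right, ← hsup, AddSubgroup.relIndex_sup_left,
      ← AddSubgroup.inf_relIndex_right, hinf]
  · -- the torsion submodule is finite
    have hfinT : Finite T := by
      have h1 : Module.IsTorsion ℤ T := Submodule.torsion_isTorsion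
      have h2 : Module.Finite ℤ T := inferInstance
      exact Module.finite_of_fg_torsion T h1
    -- map from `sat P` to `T` with kernel `P`
    let f : sat P →+ T :=
      { toFun := fun x => ⟨PS.mkQ x, (hT x).mpr x.2⟩
        map_zero' := by
          apply Subtype.ext
          simp
        map_add' := by
          intro x y
          apply Subtype.ext
          simp }
    have hfker : f.ker = P.addSubgroupOf (sat P) := by
      ext x
      rw [AddMonoidHom.mem_ker, AddSubgroup.mem_addSubgroupOf, ← hker]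
      constructor
      · intro h
        exact congrArg Subtype.val h
      · intro h
        exact Subtype.ext h
    have : P.relIndex (sat P) = Nat.card f.range := by
      rw [AddSubgroup.relIndex, ← hfker, AddSubgroup.index_ker]
    rw [this]
    exact Nat.card_pos.ne'

/-- CHI. -/
theorem chi (h : FchStmt) : ChiStmt := by
  intro ι _ L v hv hvL
  obtain ⟨F, hLF, hF, hFi, h0⟩ := exists_compl L
  refine ⟨h0, ?_⟩
  have hvF : v ∉ F := fun hvF => hvL (hF ⟨hvF, hv⟩)
  have hE : 0 < L.relIndex (sat L) := Nat.pos_of_ne_zero h0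
  obtain ⟨f, hf⟩ := h ((ι → ℤ) ⧸ F) (L.relIndex (sat L)) hE (by
    intro x
    rw [← hFi]
    have h1 : Nat.card ((ι → ℤ) ⧸ F) • x = 0 := card_nsmul_eq_zero'
    exact h1) (QuotientAddGroup.mk v) (by
    rw [Ne, QuotientAddGroup.eq_zero_iff]
    exact hvF)
  refine ⟨f.comp (QuotientAddGroup.mk' F), ?_, hf⟩
  intro x hx
  have h1 : (QuotientAddGroup.mk' F) x = 0 := (QuotientAddGroup.eq_zero_iff x).mpr (hLF hx)
  rw [AddMonoidHom.comp_apply, h1, map_zero]

end Pool.Agent.SBG.H32
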