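import Pool.Agent.Helper92_SBG.Stmts

/-!
FCH: characters of abelian groups of finite exponent.
-/

namespace Pool.Agent.SBG.H32

open Pool.Agent.SBG

/-- The embedding of `ZMod E` in `AddCircle (1 : ℚ)`. -/
theorem exists_emb (E : ℕ) (hE : 0 < E) :
    ∃ g : ZMod E →+ AddCircle (1 : ℚ), Function.Injective g ∧
      ∀ u : AddCircle (1 : ℚ), E • u = 0 → ∃ x, g x = u := by
  have : NeZero E := ⟨hE.ne'⟩
  have : Fact ((0 : ℚ) < 1) := ⟨one_pos⟩
  let u0 : AddCircle (1 : ℚ) := (((1 : ℚ) / E : ℚ) : AddCircle (1 : ℚ))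
  have hE0 : (E : ℚ) ≠ 0 := by exact_mod_cast hE.ne'
  have hord : addOrderOf u0 = E := by
    have := AddCircle.addOrderOf_period_div (p := (1 : ℚ)) hE
    exact this
  have hu0 : (E : ℤ) • u0 = 0 := by
    rw [natCast_zsmul, ← hord]
    exact addOrderOf_nsmul_eq_zero u0
  let g : ZMod E →+ AddCircle (1 : ℚ) :=
    ZMod.lift E ⟨zmultiplesHom (AddCircle (1 : ℚ)) u0, by
      simpa [zmultiplesHom_apply] using hu0⟩
  have hg : ∀ n : ℤ, g (n : ZMod E) = n • u0 := by
    intro n
    change ZMod.lift E _ (n : ZMod E) = _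
    rw [ZMod.lift_coe]
    rfl
  refine ⟨g, ?_, ?_⟩
  · rw [injective_iff_map_eq_zero]
    intro x hx
    obtain ⟨n, rfl⟩ := ZMod.intCast_surjective x
    rw [hg] at hx
    rw [ZMod.intCast_zmod_eq_zero_iff_dvd]
    rw [← hord]
    exact addOrderOf_dvd_iff_zsmul_eq_zero.mpr hx
  · intro u hu
    obtain ⟨m, _, hm⟩ := (AddCircle.nsmul_eq_zero_iff hE).mp hu
    refine ⟨((m : ℤ) : ZMod E), ?_⟩
    rw [hg, ← hm, natCast_zsmul, ← AddCircle.coe_nsmul]
    congr 1
    rw [nsmul_eq_mul]
    ring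

/-- FCH. -/
theorem fch : FchStmt := by
  intro A _ E hE hA a ha
  obtain ⟨g, hginj, hgsurj⟩ := exists_emb E hE
  obtain ⟨c, hc⟩ := CharacterModule.exists_character_apply_ne_zero_of_ne_zero ha
  have hkill : ∀ x : A, ∃ y : ZMod E, g y = c x := by
    intro x
    apply hgsurj
    have h1 : E • c x = c (E • x) := (map_nsmul c E x).symm
    rw [h1, hA x, map_zero]
  let f : A →+ ZMod E :=
    { toFun := fun x => (hkill x).choose
      map_zero' := by
        apply hginj
        rw [(hkill 0).choose_spec, map_zero, map_zero]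
      map_add' := by
        intro x y
        apply hginj
        rw [(hkill (x + y)).choose_spec, map_add, map_add, (hkill x).choose_spec,
          (hkill y).choose_spec] }
  refine ⟨f, ?_⟩
  intro h
  apply hc
  have h1 : g (f a) = c a := (hkill a).choose_spec
  rw [← h1, h, map_zero]

end Pool.Agent.SBG.H32
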