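import Pool.Agent.Helper92_SBG.Stmts

/-!
VSP: separation of an element whose image in `V k` is not in the image of `H`.
-/

namespace Pool.Agent.SBG.H32

open Pool.Agent.SBG

/-- The kernel of a map to `ZMod q` has index at most `q`. -/
theorem index_ker_le {A : Type*} [AddCommGroup A] {q : ℕ} (hq : 0 < q) (f : A →+ ZMod q) :
    f.ker.index ≤ q := by
  have hne : NeZero q := ⟨hq.ne'⟩
  rw [AddSubgroup.index_ker]
  calc Nat.card f.range ≤ Nat.card (ZMod q) :=
        Nat.card_le_card_of_injective (fun x : f.range => (x : ZMod q)) Subtype.val_injective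
    _ = q := Nat.card_zmod q

/-- The composition `ψ ∘ pv`. -/
def compP {k q : ℕ} (ψ : V k →+ ZMod q) : W k →+ ZMod q where
  toFun x := ψ (pv x)
  map_zero' := by
    rw [pv_zero, map_zero]
  map_add' := by
    intro x y
    rw [pv_add, map_add]

/-- VSP. -/
theorem vsp (h : Sp2Stmt) : VspStmt := by
  intro k H a₀ hT q hq ψ hψ x hx
  have key := h k H a₀ hT ⊤ (compP ψ).ker q hq le_top
    (by rw [AddSubgroup.index_top]; exact one_ne_zero)
    ?_ (fun _ _ => AddSubgroup.mem_top _) (fun _ _ => AddSubgroup.mem_top _) ?_ ?_ ?_ x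
    (AddSubgroup.mem_top _) hx
  · rw [AddSubgroup.index_top, mul_one] at key
    exact key
  · rw [AddSubgroup.relIndex_top_right]
    exact index_ker_le hq _
  · intro w
    rw [AddMonoidHom.mem_ker, map_nsmul, nsmul_eq_mul, CharP.cast_eq_zero, zero_mul]
  · intro y _ w
    change ψ (pv (Bf y w)) = 0
    rw [pv_Bf, map_zero]
  · intro y _ hy
    change ψ (pv y) = 0
    exact hψ _ ⟨_, hy, rfl, rfl⟩

end Pool.Agent.SBG.H32
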